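import Mathlib

set_option autoImplicit false

/-! Frank's greedy lemma for an intersecting family of bisets: a covering set of arcs and a laminar
family of at least as many members, no two of them entered by a common arc.  A biset is a pair
`X = (outer set, inner set)`; the arc `(u, v)` enters `X` if `v` is in the inner set and `u` is not in
the outer set. -/

namespace Pool.Agent.Work.MP_60abc6_co.KAP

open Finset

variable {V : Type*} [DecidableEq V]

/-- the arc `a` (from `a.1` to `a.2`) enters the biset `X` (outer set `X.1`, inner set `X.2`) -/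
def BEnters (a : V × V) (X : Finset V × Finset V) : Prop := a.2 ∈ X.2 ∧ a.1 ∉ X.1

instance (a : V × V) (X : Finset V × Finset V) : Decidable (BEnters a X) := by
  unfold BEnters
  infer_instance

/-- a laminar family of bisets -/
def BLaminar (T : Finset (Finset V × Finset V)) : Prop :=
  ∀ X ∈ T, ∀ Y ∈ T, X ≤ Y ∨ Y ≤ X ∨ Disjoint X.2 Y.2

lemma benters_or_of_inf {a : V × V} {X Y : Finset V × Finset V} (h : BEnters a (X ⊓ Y)) :
    BEnters a X ∨ BEnters a Y := by
  obtain ⟨h1, h2⟩ := h
  rw [Prod.snd_inf, inf_eq_inter, mem_inter] at h1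
  rw [Prod.fst_inf, inf_eq_inter, mem_inter] at h2
  by_cases hx : a.1 ∈ X.1
  · exact Or.inr ⟨h1.2, fun hy => h2 ⟨hx, hy⟩⟩
  · exact Or.inl ⟨h1.1, hx⟩

lemma benters_or_of_sup {a : V × V} {X Y : Finset V × Finset V} (h : BEnters a (X ⊔ Y)) :
    BEnters a X ∨ BEnters a Y := by
  obtain ⟨h1, h2⟩ := h
  rw [Prod.snd_sup, sup_eq_union, mem_union] at h1
  rw [Prod.fst_sup, sup_eq_union, notMem_union] at h2
  rcases h1 with h1 | h1
  · exact Or.inl ⟨h1, h2.1⟩
  · exact Or.inr ⟨h1, h2.2⟩

/-- the size of a biset -/
def bsize (X : Finset V × Finset V) : ℕ := X.1.card + X.2.card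

omit [DecidableEq V] in
lemma eq_of_le_of_bsize_le {X Y : Finset V × Finset V} (h : X ≤ Y) (hs : bsize Y ≤ bsize X) :
    X = Y := by
  unfold bsize at hs
  have h1 : X.1 ⊆ Y.1 := h.1
  have h2 : X.2 ⊆ Y.2 := h.2
  have h3 := card_le_card h1
  have h4 := card_le_card h2
  exact Prod.ext (eq_of_subset_of_card_le h1 (by omega)) (eq_of_subset_of_card_le h2 (by omega))

/-- Frank's greedy lemma for bisets -/
theorem bgreedy (A : Finset (V × V)) (C : Finset (Finset V × Finset V))
    (hne : ∀ X ∈ C, X.2.Nonempty)
    (hI : ∀ X ∈ C, ∀ Y ∈ C, (X.2 ∩ Y.2).Nonempty → X ⊓ Y ∈ C ∧ X ⊔ Y ∈ C)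
    (hcov : ∀ X ∈ C, ∃ a ∈ A, BEnters a X) :
    ∃ Z ⊆ A, ∃ T ⊆ C, BLaminar T ∧ Z.card ≤ T.card ∧ (∀ X ∈ C, ∃ a ∈ Z, BEnters a X) ∧
      ∀ a ∈ A, ∀ X ∈ T, ∀ Y ∈ T, BEnters a X → BEnters a Y → X = Y := by
  induction C using Finset.strongInduction with
  | H C ih =>
    rcases C.eq_empty_or_nonempty with hC | hC
    · subst hC
      exact ⟨∅, empty_subset _, ∅, empty_subset _, fun X hX => absurd hX (notMem_empty _), le_rfl,
        fun X hX => absurd hX (notMem_empty _), fun a _ X hX => absurd hX (notMem_empty _)⟩
    · -- a minimal member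
      obtain ⟨X1, hX1, hmin⟩ := exists_min_image C bsize hC
      have hcap : ∀ Y ∈ C, (X1.2 ∩ Y.2).Nonempty → X1 ≤ Y := by
        intro Y hY hXY
        have h1 := (hI X1 hX1 Y hY hXY).1
        have h2 := hmin _ h1
        have h3 : X1 ⊓ Y = X1 := eq_of_le_of_bsize_le inf_le_left h2
        rw [← h3]
        exact inf_le_right
      set C' := C.filter fun Y => ∀ a ∈ A, BEnters a X1 → ¬ BEnters a Y with hC'
      have hC'C : C' ⊆ C := filter_subset _ _
      have hX1' : X1 ∉ C' := by
        intro h
        rw [hC', mem_filter] at h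
        obtain ⟨a, ha, hX⟩ := hcov X1 hX1
        exact h.2 a ha hX hX
      have hss : C' ⊂ C := ⟨hC'C, fun h => hX1' (h hX1)⟩
      obtain ⟨Z', hZ'A, T', hT'C, hlam, hcard, hcov', hone⟩ := ih C' hss
        (fun X hX => hne X (hC'C hX))
        (by
          intro X hX Y hY hXY
          have h1 := hI X (hC'C hX) Y (hC'C hY) hXY
          rw [hC', mem_filter] at hX hY
          rw [hC', mem_filter, mem_filter]
          refine ⟨⟨h1.1, fun a ha haX h => ?_⟩, h1.2, fun a ha haX h => ?_⟩
          · rcases benters_or_of_inf h with h | h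
            · exact hX.2 a ha haX h
            · exact hY.2 a ha haX h
          · rcases benters_or_of_sup h with h | h
            · exact hX.2 a ha haX h
            · exact hY.2 a ha haX h)
        (fun X hX => hcov X (hC'C hX))
      have hX1T' : X1 ∉ T' := fun h => hX1' (hT'C h)
      have hTC : insert X1 T' ⊆ C := insert_subset hX1 (hT'C.trans hC'C)
      have hlamT : BLaminar (insert X1 T') := by
        have key : ∀ Y ∈ T', X1 ≤ Y ∨ Disjoint X1.2 Y.2 := by
          intro Y hY
          by_cases h : (X1.2 ∩ Y.2).Nonempty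
          · exact Or.inl (hcap Y (hC'C (hT'C hY)) h)
          · right
            rw [disjoint_iff_inter_eq_empty]
            exact not_nonempty_iff_eq_empty.mp h
        intro X hX Y hY
        rw [mem_insert] at hX hY
        rcases hX with rfl | hX <;> rcases hY with rfl | hY
        · exact Or.inl le_rfl
        · rcases key Y hY with h | h
          · exact Or.inl h
          · exact Or.inr (Or.inr h)
        · rcases key X hX with h | h
          · exact Or.inr (Or.inl h)
          · exact Or.inr (Or.inr h.symm)
        · exact hlam X hX Y hY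
      have honeT : ∀ a ∈ A, ∀ X ∈ insert X1 T', ∀ Y ∈ insert X1 T', BEnters a X → BEnters a Y →
          X = Y := by
        intro a ha X hX Y hY hX' hY'
        rw [mem_insert] at hX hY
        rcases hX with rfl | hX <;> rcases hY with rfl | hY
        · rfl
        · have := hT'C hY
          rw [hC', mem_filter] at this
          exact absurd hY' (this.2 a ha hX')
        · have := hT'C hX
          rw [hC', mem_filter] at this
          exact absurd hX' (this.2 a ha hY')
        · exact hone a ha X hX Y hY hX' hY'
      have hcardT : (insert X1 T').card = T'.card + 1 := card_insert_of_notMem hX1T'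
      set R := C.filter fun Y => ∀ a ∈ Z', ¬ BEnters a Y with hR
      rcases R.eq_empty_or_nonempty with hRe | hRn
      · refine ⟨Z', hZ'A, insert X1 T', hTC, hlamT, by omega, fun X hX => ?_, honeT⟩
        by_contra hcon
        push Not at hcon
        have : X ∈ R := by
          rw [hR, mem_filter]
          exact ⟨hX, hcon⟩
        rw [hRe] at this
        exact notMem_empty _ this
      · have hRarc : ∀ Y ∈ R, ∃ a ∈ A, BEnters a X1 ∧ BEnters a Y := by
          intro Y hY
          rw [hR, mem_filter] at hY
          by_contra hcon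
          push Not at hcon
          have : Y ∈ C' := by
            rw [hC', mem_filter]
            exact ⟨hY.1, hcon⟩
          obtain ⟨a, ha, haY⟩ := hcov' Y this
          exact hY.2 a ha haY
        have hRsub : ∀ Y ∈ R, X1 ≤ Y := by
          intro Y hY
          obtain ⟨a, _, h1, h2⟩ := hRarc Y hY
          rw [hR, mem_filter] at hY
          exact hcap Y hY.1 ⟨a.2, mem_inter.mpr ⟨h1.1, h2.1⟩⟩
        obtain ⟨Y0, hY0, hmax⟩ := exists_max_image R bsize hRn
        have hall : ∀ Y ∈ R, Y ≤ Y0 := by
          intro Y hY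
          have h1 : Y ⊔ Y0 ∈ R := by
            have h2 := hRsub Y hY
            have h3 := hRsub Y0 hY0
            rw [hR, mem_filter] at hY hY0 ⊢
            obtain ⟨x, hx⟩ := hne X1 hX1
            refine ⟨(hI Y hY.1 Y0 hY0.1 ⟨x, mem_inter.mpr ⟨h2.2 hx, h3.2 hx⟩⟩).2,
              fun a ha h => ?_⟩
            rcases benters_or_of_sup h with h | h
            · exact hY.2 a ha h
            · exact hY0.2 a ha h
          have h2 := hmax _ h1
          have h3 : Y0 = Y ⊔ Y0 := eq_of_le_of_bsize_le le_sup_right h2
          rw [h3]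
          exact le_sup_left
        obtain ⟨b, hb, hb1, hb2⟩ := hRarc Y0 hY0
        refine ⟨insert b Z', insert_subset hb hZ'A, insert X1 T', hTC, hlamT, ?_, fun X hX => ?_,
          honeT⟩
        · have := card_insert_le b Z'
          omega
        · by_cases h : X ∈ R
          · exact ⟨b, mem_insert_self _ _, (hRsub X h).2 hb1.1, fun hh => hb2.2 ((hall X h).1 hh)⟩
          · rw [hR, mem_filter, not_and] at h
            have := h hX
            push Not at this
            obtain ⟨a, ha, haX⟩ := this
            exact ⟨a, mem_insert_of_mem ha, haX⟩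

end Pool.Agent.Work.MP_60abc6_co.KAP
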