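import Mathlib
import Pool.Agent.Work.MP_60abc6_co.Cuts
import Pool.Agent.Work.MP_60abc6_co.Lam
import Pool.Agent.Work.MP_60abc6_co.DEL.Phases
import Pool.Agent.Work.MP_60abc6_co.KAP.BGreedy

set_option autoImplicit false

/-! Bisets and vertex connectivity: the definitions.  A biset is a pair `X` of finite sets, the outer
set `X.1` and the inner set `X.2 ⊆ X.1`. -/

namespace Pool.Agent.Work.MP_60abc6_co.KAP

open Finset Pool.Agent.Work.MP_60abc6_co.DEL

variable {V : Type*} [Fintype V] [DecidableEq V]

open Classical in
/-- the number of edges between the inner set and the complement of the outer set -/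
noncomputable def dB (G : SimpleGraph V) (X : Finset V × Finset V) : ℕ :=
  ((X.2 ×ˢ (univ \ X.1)).filter fun p => G.Adj p.1 p.2).card

/-- `dB` plus the number of vertices of the outer set which are not in the inner set -/
noncomputable def fB (G : SimpleGraph V) (X : Finset V × Finset V) : ℕ :=
  dB G X + (X.1 \ X.2).card

/-- a biset which does not contain the root `r` -/
def IsB (r : V) (X : Finset V × Finset V) : Prop := X.2.Nonempty ∧ X.2 ⊆ X.1 ∧ r ∉ X.1

/-- `F` is `j`-connected from the root `r` (in terms of bisets) -/
def RC (j : ℕ) (r : V) (F : SimpleGraph V) : Prop := ∀ X, IsB r X → j ≤ fB F X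

/-- the laminar families of phase `j` -/
def BPhaseFam (G F : SimpleGraph V) (r : V) (j : ℕ) (T : Finset (Finset V × Finset V)) : Prop :=
  BLaminar T ∧ (∀ X ∈ T, IsB r X ∧ fB F X = j) ∧
    ∀ a ∈ arcs (G \ F), ∀ X ∈ T, ∀ Y ∈ T, BEnters a X → BEnters a Y → X = Y

/-- the property of the marked set (conclusion of `core_t`): small unmarked sets, together with any
further vertex, span forests -/
def Core (g : ℕ) (F0 : SimpleGraph V) (Mk : Finset V) : Prop :=
  ∀ (S : Finset V) (y : V), Disjoint S Mk → S.card ≤ g → S.Nonempty →
    pin F0 (insert y S) + 2 ≤ 2 * (insert y S).card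

end Pool.Agent.Work.MP_60abc6_co.KAP
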