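import Mathlib
import Pool.Agent.Work.MP_60abc6_co.KAP.BDefs

set_option autoImplicit false

/-! Bisets: submodularity and vertex connectivity. -/

namespace Pool.Agent.Work.MP_60abc6_co.KAP

open Finset Pool.Agent.Work.MP_60abc6_co.DEL

variable {V : Type*} [Fintype V] [DecidableEq V]

open Classical in
lemma dB_eq_sum (G : SimpleGraph V) (X : Finset V × Finset V) :
    dB G X = ∑ p : V × V, if G.Adj p.1 p.2 ∧ p.1 ∈ X.2 ∧ p.2 ∉ X.1 then 1 else 0 := by
  unfold dB
  rw [← card_filter]
  congr 1
  ext p
  simp only [mem_filter, mem_product, mem_sdiff, mem_univ, true_and]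
  tauto

lemma dB_submod (F : SimpleGraph V) (X Y : Finset V × Finset V) :
    dB F (X ⊓ Y) + dB F (X ⊔ Y) ≤ dB F X + dB F Y := by
  classical
  rw [dB_eq_sum, dB_eq_sum, dB_eq_sum, dB_eq_sum, ← sum_add_distrib, ← sum_add_distrib]
  refine sum_le_sum fun p _ => ?_
  simp only [Prod.fst_inf, Prod.snd_inf, Prod.fst_sup, Prod.snd_sup, inf_eq_inter, sup_eq_union,
    mem_inter, mem_union]
  by_cases h : F.Adj p.1 p.2 <;> by_cases h1 : p.1 ∈ X.2 <;> by_cases h2 : p.1 ∈ Y.2 <;>
    by_cases h3 : p.2 ∈ X.1 <;> by_cases h4 : p.2 ∈ Y.1 <;> simp [h, h1, h2, h3, h4]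

omit [Fintype V] in
lemma card_wall {X : Finset V × Finset V} (hX : X.2 ⊆ X.1) :
    (X.1 \ X.2).card + X.2.card = X.1.card := by
  rw [card_sdiff_add_card, union_eq_left.mpr hX]

lemma fB_submod (F : SimpleGraph V) {X Y : Finset V × Finset V} (hX : X.2 ⊆ X.1)
    (hY : Y.2 ⊆ Y.1) : fB F (X ⊓ Y) + fB F (X ⊔ Y) ≤ fB F X + fB F Y := by
  have h1 := dB_submod F X Y
  have h2 := card_wall hX
  have h3 := card_wall hY
  have h4 := card_wall (X := X ⊓ Y) (by
    rw [Prod.fst_inf, Prod.snd_inf]
    exact inter_subset_inter hX hY)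
  have h5 := card_wall (X := X ⊔ Y) (by
    rw [Prod.fst_sup, Prod.snd_sup]
    exact union_subset_union hX hY)
  have h6 : (X ⊔ Y).1.card + (X ⊓ Y).1.card = X.1.card + Y.1.card := by
    rw [Prod.fst_sup, Prod.fst_inf]
    exact card_union_add_card_inter X.1 Y.1
  have h7 : (X ⊔ Y).2.card + (X ⊓ Y).2.card = X.2.card + Y.2.card := by
    rw [Prod.snd_sup, Prod.snd_inf]
    exact card_union_add_card_inter X.2 Y.2
  unfold fB
  omega

lemma dB_mono {F G : SimpleGraph V} (h : F ≤ G) (X : Finset V × Finset V) : dB F X ≤ dB G X := by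
  classical
  unfold dB
  apply card_le_card
  intro p hp
  rw [mem_filter] at hp ⊢
  exact ⟨hp.1, h hp.2⟩

lemma fB_mono {F G : SimpleGraph V} (h : F ≤ G) (X : Finset V × Finset V) : fB F X ≤ fB G X := by
  have := dB_mono h X
  unfold fB
  omega

lemma RC.mono_graph {j : ℕ} {r : V} {F G : SimpleGraph V} (h : RC j r F) (hFG : F ≤ G) :
    RC j r G := fun X hX => (h X hX).trans (fB_mono hFG X)

lemma RC.mono {j k : ℕ} {r : V} {F : SimpleGraph V} (h : RC k r F) (hjk : j ≤ k) :
    RC j r F := fun X hX => hjk.trans (h X hX)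

lemma dB_lt_of_enters {F F' : SimpleGraph V} (h : F ≤ F') {X : Finset V × Finset V} {a : V × V}
    (ha : F'.Adj a.1 a.2) (ha' : ¬ F.Adj a.1 a.2) (hX : BEnters a X) : dB F X < dB F' X := by
  classical
  unfold dB
  apply card_lt_card
  rw [Finset.ssubset_iff_of_subset]
  · refine ⟨(a.2, a.1), ?_, ?_⟩
    · rw [mem_filter, mem_product, mem_sdiff]
      exact ⟨⟨hX.1, mem_univ _, hX.2⟩, ha.symm⟩
    · rw [mem_filter, not_and]
      intro _ hh
      exact ha' hh.symm
  · intro p hp
    rw [mem_filter] at hp ⊢
    exact ⟨hp.1, h hp.2⟩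

lemma exists_arc_of_ltB {F G : SimpleGraph V} {X : Finset V × Finset V} (h : dB F X < dB G X) :
    ∃ a ∈ arcs (G \ F), BEnters a X := by
  classical
  by_contra hcon
  push Not at hcon
  apply absurd h
  push Not
  unfold dB
  apply card_le_card
  intro p hp
  rw [mem_filter, mem_product, mem_sdiff] at hp ⊢
  refine ⟨hp.1, ?_⟩
  by_contra hF
  refine hcon (p.2, p.1) ?_ ⟨hp.1.1, hp.1.2.2⟩
  rw [mem_arcs, SimpleGraph.sdiff_adj]
  exact ⟨hp.2.symm, fun hh => hF hh.symm⟩

/-- the number of edges between two disjoint sets, plus the number of the other vertices -/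
lemma KC_pair {k : ℕ} {G : SimpleGraph V} (hG : KC k G) (s : ℕ) : ∀ A B : Finset V,
    A.card + B.card = s → A.Nonempty → B.Nonempty → Disjoint A B →
    k ≤ dB G (univ \ B, A) + (univ \ (A ∪ B)).card := by
  classical
  induction s using Nat.strong_induction_on with
  | _ s ih =>
    intro A B hs hA hB hAB
    by_cases hno : ∀ a ∈ A, ∀ b ∈ B, ¬ G.Adj a b
    · have := hG.2 A B hA hB hAB hno
      omega
    push Not at hno
    obtain ⟨a, ha, b, hb, hab⟩ := hno
    by_cases hA2 : (A.erase a).Nonempty
    · -- remove a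
      have h1 := ih ((A.erase a).card + B.card) (by
        have := card_erase_lt_of_mem ha
        omega) (A.erase a) B rfl hA2 hB (disjoint_of_subset_left (erase_subset _ _) hAB)
      have h2 : dB G (univ \ B, A.erase a) < dB G (univ \ B, A) := by
        unfold dB
        apply card_lt_card
        rw [Finset.ssubset_iff_of_subset]
        · refine ⟨(a, b), ?_, ?_⟩
          · rw [mem_filter, mem_product, mem_sdiff, mem_sdiff]
            exact ⟨⟨ha, mem_univ _, fun h => h.2 hb⟩, hab⟩
          · rw [mem_filter, mem_product]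
            rintro ⟨⟨h, -⟩, -⟩
            exact (notMem_erase a A) h
        · intro p hp
          rw [mem_filter, mem_product] at hp ⊢
          exact ⟨⟨mem_of_mem_erase hp.1.1, hp.1.2⟩, hp.2⟩
      have h3 : univ \ (A.erase a ∪ B) ⊆ insert a (univ \ (A ∪ B)) := by
        intro v hv
        rw [mem_sdiff, mem_union, mem_erase] at hv
        rw [mem_insert, mem_sdiff, mem_union]
        by_cases hva : v = a
        · exact Or.inl hva
        · refine Or.inr ⟨mem_univ _, fun h => hv.2 ?_⟩
          rcases h with h | h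
          · exact Or.inl ⟨hva, h⟩
          · exact Or.inr h
      have h4 := (card_le_card h3).trans (card_insert_le _ _)
      omega
    by_cases hB2 : (B.erase b).Nonempty
    · have h1 := ih (A.card + (B.erase b).card) (by
        have := card_erase_lt_of_mem hb
        omega) A (B.erase b) rfl hA hB2 (disjoint_of_subset_right (erase_subset _ _) hAB)
      have h2 : dB G (univ \ B.erase b, A) < dB G (univ \ B, A) := by
        unfold dB
        apply card_lt_card
        rw [Finset.ssubset_iff_of_subset]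
        · refine ⟨(a, b), ?_, ?_⟩
          · rw [mem_filter, mem_product, mem_sdiff, mem_sdiff]
            exact ⟨⟨ha, mem_univ _, fun h => h.2 hb⟩, hab⟩
          · rw [mem_filter, mem_product, mem_sdiff, mem_sdiff]
            rintro ⟨⟨-, -, h⟩, -⟩
            exact h ⟨mem_univ _, notMem_erase b B⟩
        · intro p hp
          rw [mem_filter, mem_product, mem_sdiff, mem_sdiff] at hp ⊢
          refine ⟨⟨hp.1.1, mem_univ _, fun h => hp.1.2.2 ⟨mem_univ _, fun h' => h.2 ?_⟩⟩, hp.2⟩
          exact mem_of_mem_erase h'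
      have h3 : univ \ (A ∪ B.erase b) ⊆ insert b (univ \ (A ∪ B)) := by
        intro v hv
        rw [mem_sdiff, mem_union, mem_erase] at hv
        rw [mem_insert, mem_sdiff, mem_union]
        by_cases hva : v = b
        · exact Or.inl hva
        · refine Or.inr ⟨mem_univ _, fun h => hv.2 ?_⟩
          rcases h with h | h
          · exact Or.inl h
          · exact Or.inr ⟨hva, h⟩
      have h4 := (card_le_card h3).trans (card_insert_le _ _)
      omega
    -- both are singletons
    have hA1 : A.card = 1 := by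
      rw [not_nonempty_iff_eq_empty] at hA2
      have := card_erase_of_mem ha
      rw [hA2, card_empty] at this
      have := card_pos.mpr hA
      omega
    have hB1 : B.card = 1 := by
      rw [not_nonempty_iff_eq_empty] at hB2
      have := card_erase_of_mem hb
      rw [hB2, card_empty] at this
      have := card_pos.mpr hB
      omega
    have h1 : 1 ≤ dB G (univ \ B, A) := by
      unfold dB
      rw [Nat.one_le_iff_ne_zero, ← Nat.pos_iff_ne_zero, card_pos]
      refine ⟨(a, b), ?_⟩
      rw [mem_filter, mem_product, mem_sdiff, mem_sdiff]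
      exact ⟨⟨ha, mem_univ _, fun h => h.2 hb⟩, hab⟩
    have h2 : (univ \ (A ∪ B)).card + (A ∪ B).card = Fintype.card V := by
      rw [card_sdiff_add_card, union_eq_left.mpr (subset_univ _), card_univ]
    have h3 : (A ∪ B).card = A.card + B.card := card_union_of_disjoint hAB
    have := hG.1
    omega

/-- in a `k`-connected graph all bisets with outer set not everything have `fB ≥ k` -/
theorem RC_of_KC {k : ℕ} {G : SimpleGraph V} (hG : KC k G) (r : V) : RC k r G := by
  intro X hX
  have h := KC_pair hG _ X.2 (univ \ X.1) rfl hX.1 ⟨r, by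
    rw [mem_sdiff]
    exact ⟨mem_univ _, hX.2.2⟩⟩ (by
    rw [disjoint_left]
    intro v hv hv'
    rw [mem_sdiff] at hv'
    exact hv'.2 (hX.2.1 hv))
  have e1 : (univ \ (univ \ X.1) : Finset V) = X.1 := by
    ext v
    simp
  have e2 : univ \ (X.2 ∪ (univ \ X.1)) = X.1 \ X.2 := by
    ext v
    simp only [mem_sdiff, mem_univ, mem_union, true_and, not_or, not_not]
    tauto
  rw [e1, e2] at h
  exact h

/-- `l`-connectivity from `l` roots is `l`-connectivity -/
theorem KC_of_RC {l : ℕ} {F : SimpleGraph V} (hl : l < Fintype.card V) (R : Finset V)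
    (hR : l ≤ R.card) (h : ∀ r ∈ R, RC l r F) : KC l F := by
  classical
  refine ⟨hl, fun A B hA hB hAB hno => ?_⟩
  by_contra hlt
  push Not at hlt
  -- one root is not in the separator
  obtain ⟨r, hr, hrS⟩ : ∃ r ∈ R, r ∉ univ \ (A ∪ B) := by
    by_contra hcon
    push Not at hcon
    have := card_le_card (show R ⊆ univ \ (A ∪ B) from fun r hr => hcon r hr)
    omega
  have hrAB : r ∈ A ∪ B := by
    by_contra hcon
    exact hrS (mem_sdiff.mpr ⟨mem_univ _, hcon⟩)
  -- the version with the root in the second part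
  have key : ∀ A B : Finset V, A.Nonempty → Disjoint A B → (∀ a ∈ A, ∀ b ∈ B, ¬ F.Adj a b) →
      (univ \ (A ∪ B)).card < l → r ∈ B → False := by
    intro A B hA hAB hno hlt hrB
    have h1 := h r hr (univ \ B, A) ⟨hA, ?_, ?_⟩
    · unfold fB at h1
      have h2 : dB F (univ \ B, A) = 0 := by
        unfold dB
        rw [card_eq_zero, filter_eq_empty_iff]
        rintro p hp hadj
        rw [mem_product, mem_sdiff, mem_sdiff] at hp
        refine hno p.1 hp.1 p.2 ?_ hadj
        by_contra hb
        exact hp.2.2 ⟨mem_univ _, hb⟩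
      have h3 : (univ \ B) \ A = univ \ (A ∪ B) := by
        ext v
        simp only [mem_sdiff, mem_univ, mem_union, true_and, not_or]
        tauto
      rw [h2] at h1
      dsimp only at h1
      rw [h3] at h1
      omega
    · intro v hv
      exact mem_sdiff.mpr ⟨mem_univ _, fun hvB => disjoint_left.mp hAB hv hvB⟩
    · rw [mem_sdiff]
      exact fun hh => hh.2 hrB
  rw [mem_union] at hrAB
  rcases hrAB with hrA | hrB
  · refine key B A hB hAB.symm (fun b hb a ha hab => hno a ha b hb hab.symm) ?_ hrA
    rwa [union_comm]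
  · exact key A B hA hAB hno hlt hrB

end Pool.Agent.Work.MP_60abc6_co.KAP
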