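import Mathlib
import Pool.Agent.Work.MP_60abc6_co.KAP.BCuts

set_option autoImplicit false

/-! The phases for vertex connectivity, with several roots. -/

namespace Pool.Agent.Work.MP_60abc6_co.KAP

open Finset Pool.Agent.Work.MP_60abc6_co.DEL

variable {V : Type*} [Fintype V] [DecidableEq V]

/-- one phase -/
theorem bphase {G F : SimpleGraph V} {j : ℕ} (r : V) (hFG : F ≤ G) (hG : RC (j + 1) r G)
    (hF : RC j r F) :
    ∃ T, BPhaseFam G F r j T ∧ ∃ F', F ≤ F' ∧ F' ≤ G ∧ RC (j + 1) r F' ∧ ec F' ≤ ec F + T.card := by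
  classical
  set C : Finset (Finset V × Finset V) := univ.filter fun X => IsB r X ∧ fB F X = j with hC
  have hCne : ∀ X ∈ C, X.2.Nonempty := fun X hX => (mem_filter.mp hX).2.1.1
  obtain ⟨Z, hZ, T, hT, hlam, hcard, hcov, hone⟩ := bgreedy (arcs (G \ F)) C hCne
    (by
      intro X hX Y hY hXY
      rw [hC, mem_filter] at hX hY
      rw [hC, mem_filter, mem_filter]
      obtain ⟨-, ⟨hX1, hX2, hX3⟩, hX4⟩ := hX
      obtain ⟨-, ⟨hY1, hY2, hY3⟩, hY4⟩ := hY
      have h1 := fB_submod F hX2 hY2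
      have hI : IsB r (X ⊓ Y) := by
        refine ⟨?_, ?_, ?_⟩
        · rw [Prod.snd_inf]
          exact hXY
        · rw [Prod.fst_inf, Prod.snd_inf]
          exact inter_subset_inter hX2 hY2
        · rw [Prod.fst_inf, inf_eq_inter, mem_inter]
          exact fun h => hX3 h.1
      have hU : IsB r (X ⊔ Y) := by
        refine ⟨?_, ?_, ?_⟩
        · rw [Prod.snd_sup]
          exact hX1.mono subset_union_left
        · rw [Prod.fst_sup, Prod.snd_sup]
          exact union_subset_union hX2 hY2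
        · rw [Prod.fst_sup, sup_eq_union, notMem_union]
          exact ⟨hX3, hY3⟩
      have h2 := hF _ hI
      have h3 := hF _ hU
      exact ⟨⟨mem_univ _, hI, by omega⟩, mem_univ _, hU, by omega⟩)
    (by
      intro X hX
      rw [hC, mem_filter] at hX
      apply exists_arc_of_ltB
      have h1 := hG X hX.2.1
      have h2 := hX.2.2
      unfold fB at h1 h2
      omega)
  refine ⟨T, ⟨hlam, fun X hX => (mem_filter.mp (hT hX)).2, hone⟩, ?_⟩
  set F' : SimpleGraph V := F ⊔ SimpleGraph.fromEdgeSet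
    ((Z.image fun a => s(a.1, a.2) : Finset (Sym2 V)) : Set (Sym2 V)) with hF'
  have hle : F ≤ F' := le_sup_left
  have hadj : ∀ a ∈ Z, F'.Adj a.1 a.2 := by
    intro a ha
    have h1 := hZ ha
    rw [mem_arcs] at h1
    rw [hF', SimpleGraph.sup_adj, SimpleGraph.fromEdgeSet_adj]
    right
    refine ⟨?_, h1.ne⟩
    rw [mem_coe, mem_image]
    exact ⟨a, ha, rfl⟩
  refine ⟨F', hle, ?_, ?_, ?_⟩
  · intro u v huv
    rw [hF', SimpleGraph.sup_adj, SimpleGraph.fromEdgeSet_adj] at huv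
    rcases huv with h | ⟨h, _⟩
    · exact hFG h
    · rw [mem_coe, mem_image] at h
      obtain ⟨a, ha, hae⟩ := h
      have h1 := hZ ha
      rw [mem_arcs, SimpleGraph.sdiff_adj] at h1
      rw [Sym2.eq_iff] at hae
      rcases hae with ⟨h2, h3⟩ | ⟨h2, h3⟩
      · rw [← h2, ← h3]
        exact h1.1
      · rw [← h2, ← h3]
        exact h1.1.symm
  · intro X hX
    have h1 := hF X hX
    by_cases hj : fB F X = j
    · obtain ⟨a, ha, haX⟩ := hcov X (mem_filter.mpr ⟨mem_univ _, hX, hj⟩)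
      have h2 := hZ ha
      rw [mem_arcs, SimpleGraph.sdiff_adj] at h2
      have := dB_lt_of_enters hle (hadj a ha) h2.2 haX
      unfold fB at h1 ⊢
      omega
    · have h3 := fB_mono hle X
      omega
  · have := ec_sup_le F Z
    rw [← hF'] at this
    omega

/-- the phases for one root -/
theorem bphases_root {G M : SimpleGraph V} {l : ℕ} (r : V) (hMG : M ≤ G) (hG : RC l r G)
    (b B : ℝ) (hb : 0 ≤ b) (hB : (ec M : ℝ) + l * b ≤ B)
    (h : ∀ j : ℕ, j < l → ∀ F, M ≤ F → F ≤ G →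
      (ec F : ℝ) ≤ B → ∀ T, BPhaseFam G F r j T → (T.card : ℝ) ≤ b) :
    ∃ H, M ≤ H ∧ H ≤ G ∧ RC l r H ∧ (ec H : ℝ) ≤ ec M + l * b := by
  have key : ∀ j ≤ l, ∃ F, M ≤ F ∧ F ≤ G ∧ RC j r F ∧ (ec F : ℝ) ≤ ec M + j * b := by
    intro j
    induction j with
    | zero =>
      intro _
      exact ⟨M, le_rfl, hMG, fun X _ => Nat.zero_le _, by simp⟩
    | succ j ih =>
      intro hj
      obtain ⟨F, hMF, hFG, hF, hec⟩ := ih (by omega)
      have hjl : (j : ℝ) * b ≤ l * b := by
        apply mul_le_mul_of_nonneg_right _ hb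
        have : j ≤ l := by omega
        exact_mod_cast this
      obtain ⟨T, hT, F', hFF', hF'G, hF', hec'⟩ := bphase r hFG (hG.mono hj) hF
      have h1 := h j (by omega) F hMF hFG (by linarith) T hT
      refine ⟨F', hMF.trans hFF', hF'G, hF', ?_⟩
      have h2 : (ec F' : ℝ) ≤ ec F + T.card := by exact_mod_cast hec'
      push_cast
      linarith
  exact key l le_rfl

/-- all phases, for `l` roots -/
theorem bphases {G M : SimpleGraph V} {l : ℕ} (hl : l < Fintype.card V) (hMG : M ≤ G)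
    (hG : KC l G) (b : ℝ) (hb : 0 ≤ b)
    (h : ∀ (r : V) (j : ℕ), j < l → ∀ F, M ≤ F → F ≤ G →
      (ec F : ℝ) ≤ ec M + (l : ℝ) ^ 2 * b → ∀ T, BPhaseFam G F r j T → (T.card : ℝ) ≤ b) :
    ∃ H, M ≤ H ∧ H ≤ G ∧ KC l H ∧ (ec H : ℝ) ≤ ec M + (l : ℝ) ^ 2 * b := by
  obtain ⟨R, -, hR⟩ := exists_subset_card_eq (s := (univ : Finset V)) (n := l)
    (by rw [card_univ]; omega)
  have key : ∀ S : Finset V, S ⊆ R → ∃ H, M ≤ H ∧ H ≤ G ∧ (∀ r ∈ S, RC l r H) ∧
      (ec H : ℝ) ≤ ec M + S.card * (l * b) := by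
    intro S
    induction S using Finset.induction_on with
    | empty =>
      intro _
      exact ⟨M, le_rfl, hMG, fun r hr => absurd hr (notMem_empty _), by simp⟩
    | insert r S hrS ih =>
      intro hS
      obtain ⟨F, hMF, hFG, hF, hec⟩ := ih ((subset_insert _ _).trans hS)
      have hc := card_le_card hS
      rw [card_insert_of_notMem hrS, hR] at hc
      have hc' : ((S.card : ℝ) + 1) * (l * b) ≤ l * (l * b) := by
        apply mul_le_mul_of_nonneg_right _ (by positivity)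
        exact_mod_cast hc
      obtain ⟨H, hFH, hHG, hH, hec'⟩ := bphases_root r hFG (RC_of_KC hG r) b
        (ec M + (l : ℝ) ^ 2 * b) hb (by nlinarith) (fun j hj F1 h1 h2 h3 T hT =>
          h r j hj F1 (hMF.trans h1) h2 h3 T hT)
      refine ⟨H, hMF.trans hFH, hHG, fun r' hr' => ?_, ?_⟩
      · rw [mem_insert] at hr'
        rcases hr' with rfl | hr'
        · exact hH
        · exact (hF r' hr').mono_graph hFH
      · rw [card_insert_of_notMem hrS]
        push_cast
        linarith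
  obtain ⟨H, h1, h2, h3, h4⟩ := key R subset_rfl
  refine ⟨H, h1, h2, KC_of_RC hl R hR.ge h3, ?_⟩
  rw [hR] at h4
  linarith [h4, show (l : ℝ) * (l * b) = (l : ℝ) ^ 2 * b by ring]

end Pool.Agent.Work.MP_60abc6_co.KAP
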