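import Mathlib
import Pool.Agent.Work.MP_60abc6_co.DEL.LamCount

set_option autoImplicit false

/-! The number of members of a laminar family, counted by a weight on the points: the version with
chains of length `m`. -/

namespace Pool.Agent.Work.MP_60abc6_co.KAP

open Finset Pool.Agent.Work.MP_60abc6_co.DEL

variable {V : Type*} [DecidableEq V]

/-- `Y` is reached from `X` by `i` steps to the only child -/
def Desc (T : Finset (Finset V)) : ℕ → Finset V → Finset V → Prop
  | 0, X, Y => X = Y
  | i + 1, X, Y => ∃ Z, OnlyChild T X Z ∧ Desc T i Z Y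

variable {T : Finset (Finset V)} {μ : V → ℝ}

lemma Desc.mem {i : ℕ} : ∀ {X Y : Finset V}, X ∈ T → Desc T i X Y → Y ∈ T := by
  induction i with
  | zero => intro X Y hX h; exact h ▸ hX
  | succ i ih =>
    rintro X Y _ ⟨Z, hZ, h⟩
    exact ih hZ.1 h

lemma Desc.subset {i : ℕ} : ∀ {X Y : Finset V}, Desc T i X Y → Y ⊆ X := by
  induction i with
  | zero => intro X Y h; exact h ▸ subset_rfl
  | succ i ih =>
    rintro X Y ⟨Z, hZ, h⟩
    exact (ih h).trans hZ.2.1.1

lemma Desc.ssubset {i : ℕ} {X Y : Finset V} (h : Desc T (i + 1) X Y) : Y ⊂ X := by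
  obtain ⟨Z, hZ, h⟩ := h
  exact lt_of_le_of_lt h.subset hZ.2.1

lemma Desc.card {i : ℕ} : ∀ {X Y : Finset V}, X ∈ T → Desc T i X Y →
    (T.filter fun Z => Z ⊆ X).card = i + (T.filter fun Z => Z ⊆ Y).card := by
  induction i with
  | zero => intro X Y _ h; rw [h]; simp
  | succ i ih =>
    rintro X Y hX ⟨Z, hZ, h⟩
    rw [hZ.card hX, ih hZ.1 h]
    ring

lemma Desc.snoc {i : ℕ} : ∀ {X Y Z : Finset V}, Desc T i X Y → OnlyChild T Y Z →
    Desc T (i + 1) X Z := by
  induction i with
  | zero => intro X Y Z h h'; exact ⟨Z, h ▸ h', rfl⟩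
  | succ i ih =>
    rintro X Y Z ⟨W, hW, h⟩ h'
    exact ⟨W, hW, ih h h'⟩

lemma lam_indM {m : ℕ} (hm : 1 ≤ m) (hL : Laminar T) (hne : ∀ X ∈ T, X.Nonempty)
    (hμ : ∀ v, 0 ≤ μ v) (P1 : ∀ X ∈ T, 1 ≤ ∑ v ∈ X, μ v)
    (P2 : ∀ X ∈ T, ∀ Y, Desc T m X Y → 1 ≤ ∑ v ∈ X \ Y, μ v) (X : Finset V) (hX : X ∈ T) :
    ((T.filter fun Y => Y ⊆ X).card : ℝ) ≤ 2 * m * ∑ v ∈ X, μ v - m ∧
      ((¬ ∃ Y, OnlyChild T X Y) →
        ((T.filter fun Y => Y ⊆ X).card : ℝ) ≤ 2 * m * ∑ v ∈ X, μ v - (2 * m - 1)) := by
  have hm' : (1 : ℝ) ≤ m := by exact_mod_cast hm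
  induction X using Finset.strongInduction with
  | H X ih =>
    have hmono : ∀ Y, Y ⊆ X → ∑ v ∈ Y, μ v ≤ ∑ v ∈ X, μ v := fun Y hY =>
      sum_le_sum_of_subset_of_nonneg hY fun v _ _ => hμ v
    by_cases hch : ∃ Y, OnlyChild T X Y
    · refine ⟨?_, fun h => absurd hch h⟩
      by_cases hfull : ∃ Y, Desc T m X Y
      · obtain ⟨Y, hY⟩ := hfull
        obtain ⟨m', rfl⟩ : ∃ m', m = m' + 1 := ⟨m - 1, by omega⟩
        have hYX := hY.ssubset
        have hYT := hY.mem hX
        have i1 := (ih Y hYX hYT).1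
        have p := P2 X hX Y hY
        have hs := sum_sdiff (f := μ) hYX.1
        rw [hY.card hX]
        push_cast at i1 ⊢
        nlinarith
      · -- the longest descent
        obtain ⟨i, hi, hi2⟩ : ∃ i, (∃ Y, Desc T i X Y) ∧ ¬ ∃ Y, Desc T (i + 1) X Y := by
          by_contra hcon
          push Not at hcon
          apply hfull
          have : ∀ i, ∃ Y, Desc T i X Y := by
            intro i
            induction i with
            | zero => exact ⟨X, rfl⟩
            | succ i ihi =>
              obtain ⟨Y, hY⟩ := ihi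
              exact hcon i ⟨Y, hY⟩
          exact this m
        obtain ⟨Y, hY⟩ := hi
        have him : i < m := by
          by_contra hle
          push Not at hle
          apply hfull
          -- truncate
          have htr : ∀ j k : ℕ, ∀ X Y, Desc T (j + k) X Y → ∃ Z, Desc T j X Z := by
            intro j
            induction j with
            | zero => intro k X Y _; exact ⟨X, rfl⟩
            | succ j ihj =>
              intro k X Y h
              rw [show j + 1 + k = (j + k) + 1 by ring] at h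
              obtain ⟨W, hW, h⟩ := h
              obtain ⟨Z, hZ⟩ := ihj k W Y h
              exact ⟨Z, W, hW, hZ⟩
          obtain ⟨k, rfl⟩ := Nat.exists_eq_add_of_le hle
          exact htr m k X Y hY
        have hYch : ¬ ∃ Z, OnlyChild T Y Z := by
          rintro ⟨Z, hZ⟩
          exact hi2 ⟨Z, hY.snoc hZ⟩
        have hi0 : i ≠ 0 := by
          rintro rfl
          have : X = Y := hY
          exact hYch (this ▸ hch)
        obtain ⟨i', rfl⟩ : ∃ i', i = i' + 1 := ⟨i - 1, by omega⟩
        have hYX := hY.ssubset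
        have hYT := hY.mem hX
        have i1 := (ih Y hYX hYT).2 hYch
        have m1 := hmono Y hYX.1
        rw [hY.card hX]
        have him' : ((i' + 1 : ℕ) : ℝ) ≤ m - 1 := by
          have : i' + 1 + 1 ≤ m := by omega
          have h2 : ((i' + 1 + 1 : ℕ) : ℝ) ≤ m := by exact_mod_cast this
          push_cast at h2 ⊢
          linarith
        have m2 := mul_le_mul_of_nonneg_left m1 (show (0 : ℝ) ≤ 2 * m by positivity)
        push_cast at him' ⊢
        linarith
    · suffices h : ((T.filter fun Y => Y ⊆ X).card : ℝ) ≤ 2 * m * ∑ v ∈ X, μ v - (2 * m - 1) from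
        ⟨by linarith, fun _ => h⟩
      rw [card_filter_subset hX]
      set S := T.filter fun Y => Y ⊂ X with hS
      have hST : S ⊆ T := filter_subset _ _
      have hSX : ∀ Y ∈ S, Y ⊂ X := fun Y hY => (mem_filter.mp hY).2
      rcases S.eq_empty_or_nonempty with hSe | hSn
      · rw [hSe, card_empty]
        push_cast
        nlinarith [P1 X hX]
      · have hLS : Laminar S := hL.mono hST
        have hcard := card_maxF hLS (fun Y hY => hne Y (hST hY))
        have hsum := sum_maxF hLS hμ (fun Y hY => (hSX Y hY).1)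
        have hterm : ∀ M ∈ maxF S, ((S.filter fun Y => Y ⊆ M).card : ℝ) ≤
            2 * m * ∑ v ∈ M, μ v - m := by
          intro M hM
          have hMS := maxF_subset S hM
          have h1 : (S.filter fun Y => Y ⊆ M) = T.filter fun Y => Y ⊆ M := by
            ext Y
            simp only [hS, mem_filter]
            constructor
            · rintro ⟨⟨h1, _⟩, h3⟩
              exact ⟨h1, h3⟩
            · rintro ⟨h1, h3⟩
              exact ⟨⟨h1, lt_of_le_of_lt h3 (hSX M hMS)⟩, h3⟩
          rw [h1]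
          exact (ih M (hSX M hMS) (hST hMS)).1
        have htwo : 2 ≤ (maxF S).card := by
          by_contra hlt
          push Not at hlt
          apply hch
          obtain ⟨Y, hY⟩ := hSn
          obtain ⟨M, hM, _⟩ := exists_maxF hY
          refine ⟨M, hST (maxF_subset S hM), hSX M (maxF_subset S hM), fun Z hZ hZX => ?_⟩
          obtain ⟨N, hN, hZN⟩ := exists_maxF (S := S) (mem_filter.mpr ⟨hZ, hZX⟩)
          have : N = M := by
            have h1 : (maxF S).card ≤ 1 := by omega
            exact card_le_one.mp h1 N hN M hM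
          rw [← this]
          exact hZN
        have h1 : (S.card : ℝ) ≤ ∑ M ∈ maxF S, (2 * m * ∑ v ∈ M, μ v - m) := by
          rw [hcard]
          push_cast
          exact sum_le_sum hterm
        rw [sum_sub_distrib, ← mul_sum, sum_const, nsmul_eq_mul] at h1
        have h2 : (2 : ℝ) ≤ (maxF S).card := by exact_mod_cast htwo
        have h3 := mul_le_mul_of_nonneg_left hsum (show (0 : ℝ) ≤ 2 * m by positivity)
        have h4 := mul_le_mul_of_nonneg_right h2 (show (0 : ℝ) ≤ m by positivity)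
        push_cast
        linarith

/-- the number of members of a laminar family -/
theorem lam_countM {m : ℕ} (hm : 1 ≤ m) (hL : Laminar T) (hne : ∀ X ∈ T, X.Nonempty)
    (hμ : ∀ v, 0 ≤ μ v) (P1 : ∀ X ∈ T, 1 ≤ ∑ v ∈ X, μ v)
    (P2 : ∀ X ∈ T, ∀ Y, Desc T m X Y → 1 ≤ ∑ v ∈ X \ Y, μ v) {U : Finset V}
    (hU : ∀ X ∈ T, X ⊆ U) : (T.card : ℝ) ≤ 2 * m * ∑ v ∈ U, μ v := by
  have h1 := card_maxF hL hne
  have h2 := sum_maxF hL hμ hU
  have h3 : (T.card : ℝ) ≤ ∑ M ∈ maxF T, 2 * m * ∑ v ∈ M, μ v := by
    rw [h1]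
    push_cast
    refine sum_le_sum fun M hM => ?_
    have := (lam_indM hm hL hne hμ P1 P2 M (maxF_subset T hM)).1
    have hm0 : (0 : ℝ) ≤ m := by positivity
    linarith
  rw [← mul_sum] at h3
  exact h3.trans (mul_le_mul_of_nonneg_left h2 (by positivity))

end Pool.Agent.Work.MP_60abc6_co.KAP
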