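import Mathlib
import Pool.Agent.Work.MP_60abc6_co.Bounds
import Pool.Agent.Work.MP_60abc6_co.Match
import Pool.Agent.Work.MP_60abc6_co.KAP.BCuts
import Pool.Agent.Work.MP_60abc6_co.KAP.LamM

set_option autoImplicit false

/-! The number of members of a phase family for vertex connectivity. -/

namespace Pool.Agent.Work.MP_60abc6_co.KAP

open Finset Pool.Agent.Work.MP_60abc6_co.DEL

variable {V : Type*} [Fintype V] [DecidableEq V]

open Classical in
/-- the vertices with few neighbours in `G \ F` -/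
noncomputable def badSet (G F : SimpleGraph V) (k : ℕ) : Finset V :=
  univ.filter fun v => 2 * dgc (G \ F) v < k

open Classical in
/-- the adjacency indicator -/
noncomputable def adj01 (F : SimpleGraph V) (u v : V) : ℕ := if F.Adj u v then 1 else 0

omit [Fintype V] [DecidableEq V] in
lemma adj01_comm (F : SimpleGraph V) (u v : V) : adj01 F u v = adj01 F v u := by
  unfold adj01
  by_cases h : F.Adj u v
  · rw [if_pos h, if_pos h.symm]
  · rw [if_neg h, if_neg fun h' => h h'.symm]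

omit [Fintype V] [DecidableEq V] in
lemma adj01_self (F : SimpleGraph V) (u : V) : adj01 F u u = 0 := by
  unfold adj01
  simp

omit [Fintype V] [DecidableEq V] in
lemma pin_eq_sum [Fintype V] [DecidableEq V] (F : SimpleGraph V) (C : Finset V) :
    pin F C = ∑ u ∈ C, ∑ v ∈ C, adj01 F u v := by
  classical
  unfold pin adj01
  rw [card_filter, sum_product]

lemma dgc_eq_sum (F : SimpleGraph V) (v : V) : dgc F v = ∑ y, adj01 F v y := by
  classical
  unfold dgc adj01
  rw [card_filter]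

lemma pin_insert (F : SimpleGraph V) {C : Finset V} {y : V} (hy : y ∉ C) :
    pin F (insert y C) = pin F C + 2 * ∑ v ∈ C, adj01 F y v := by
  rw [pin_eq_sum, pin_eq_sum, sum_insert hy, sum_insert hy, adj01_self]
  have : ∑ u ∈ C, ∑ v ∈ insert y C, adj01 F u v =
      ∑ v ∈ C, adj01 F y v + ∑ u ∈ C, ∑ v ∈ C, adj01 F u v := by
    rw [← sum_add_distrib]
    refine sum_congr rfl fun u _ => ?_
    rw [sum_insert hy, adj01_comm]
  rw [this]
  ring

/-- (P1): a tight biset has an inner set which meets `Mk` or has more than `g` elements -/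
theorem p1 {F F0 : SimpleGraph V} {r : V} {j l g : ℕ} (hF0 : F0 ≤ F) (hl : 2 ≤ l) (hj : j < l)
    (Mk : Finset V) (hMk : ∀ v, v ∉ Mk → dgc F0 v = l) (hcore : Core g F0 Mk)
    {X : Finset V × Finset V} (hX : IsB r X) (hXj : fB F X = j) (hd : Disjoint X.2 Mk) :
    g < X.2.card := by
  classical
  by_contra hlt
  push Not at hlt
  obtain ⟨hne, hsub, -⟩ := hX
  -- a maximal tree
  set P := X.2.powerset.filter fun C => C.Nonempty ∧ pin F0 C + 2 = 2 * C.card with hP
  obtain ⟨v0, hv0⟩ := hne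
  have hP0 : {v0} ∈ P := by
    rw [hP, mem_filter, mem_powerset, singleton_subset_iff]
    refine ⟨hv0, singleton_nonempty _, ?_⟩
    rw [pin_eq_sum, sum_singleton, sum_singleton, adj01_self, card_singleton]
  obtain ⟨C, hC, hmax⟩ := exists_max_image P Finset.card ⟨_, hP0⟩
  rw [hP, mem_filter, mem_powerset] at hC
  obtain ⟨hCX, hCne, hCpin⟩ := hC
  have hCg : C.card ≤ g := (card_le_card hCX).trans hlt
  have hCd : Disjoint C Mk := disjoint_of_subset_left hCX hd
  -- every outer vertex has at most one neighbour in C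
  have hone : ∀ y, y ∉ C → ∑ v ∈ C, adj01 F0 y v ≤ 1 := by
    intro y hy
    have h1 := hcore C y hCd hCg hCne
    rw [pin_insert F0 hy, card_insert_of_notMem hy] at h1
    omega
  have hzero : ∀ y ∈ X.2, y ∉ C → ∑ v ∈ C, adj01 F0 y v = 0 := by
    intro y hyX hy
    by_contra hne0
    have h1 := hone y hy
    have h2 : insert y C ∈ P := by
      rw [hP, mem_filter, mem_powerset]
      refine ⟨insert_subset hyX hCX, insert_nonempty _ _, ?_⟩
      rw [pin_insert F0 hy, card_insert_of_notMem hy]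
      omega
    have h3 := hmax _ h2
    rw [card_insert_of_notMem hy] at h3
    omega
  -- the count
  have h1 : ∑ v ∈ C, dgc F0 v = l * C.card := by
    rw [sum_congr rfl fun v hv => hMk v (disjoint_left.mp hCd hv), sum_const, smul_eq_mul,
      mul_comm]
  have h2 : ∑ v ∈ C, dgc F0 v = pin F0 C + ∑ y ∈ univ \ C, ∑ v ∈ C, adj01 F0 y v := by
    have : ∀ v ∈ C, dgc F0 v = ∑ y ∈ C, adj01 F0 v y + ∑ y ∈ univ \ C, adj01 F0 v y := by
      intro v _
      rw [dgc_eq_sum, add_comm, sum_sdiff (subset_univ C)]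
    rw [sum_congr rfl this, sum_add_distrib, ← pin_eq_sum, sum_comm (s := C) (t := univ \ C)]
    congr 1
    exact sum_congr rfl fun y _ => sum_congr rfl fun v _ => adj01_comm _ _ _
  have h3 : ∑ y ∈ univ \ C, ∑ v ∈ C, adj01 F0 y v ≤
      ∑ y ∈ univ \ X.2, ∑ v ∈ C, adj01 F0 y v := by
    rw [← sum_sdiff (s₁ := univ \ X.2) (s₂ := univ \ C) (sdiff_subset_sdiff subset_rfl hCX)]
    have : ∑ y ∈ (univ \ C) \ (univ \ X.2), ∑ v ∈ C, adj01 F0 y v = 0 := by
      refine sum_eq_zero fun y hy => ?_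
      rw [mem_sdiff, mem_sdiff, mem_sdiff] at hy
      refine hzero y ?_ hy.1.2
      by_contra hcon
      exact hy.2 ⟨mem_univ _, hcon⟩
    omega
  have h4 : ∑ y ∈ univ \ X.2, ∑ v ∈ C, adj01 F0 y v ≤
      (X.1 \ X.2).card + ∑ y ∈ univ \ X.1, ∑ v ∈ C, adj01 F0 y v := by
    rw [← sum_sdiff (s₁ := univ \ X.1) (s₂ := univ \ X.2) (sdiff_subset_sdiff subset_rfl hsub)]
    have e1 : (univ \ X.2) \ (univ \ X.1) = X.1 \ X.2 := by
      ext v
      simp only [mem_sdiff, mem_univ, true_and, not_not]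
      tauto
    rw [e1]
    have : ∑ y ∈ X.1 \ X.2, ∑ v ∈ C, adj01 F0 y v ≤ ∑ y ∈ X.1 \ X.2, 1 := by
      refine sum_le_sum fun y hy => ?_
      rw [mem_sdiff] at hy
      exact hone y fun h => hy.2 (hCX h)
    rw [sum_const, smul_eq_mul, mul_one] at this
    omega
  have h5 : ∑ y ∈ univ \ X.1, ∑ v ∈ C, adj01 F0 y v ≤ dB F X := by
    have e1 : dB F X = ∑ v ∈ X.2, ∑ y ∈ univ \ X.1, adj01 F v y := by
      unfold dB adj01
      rw [card_filter, sum_product]
    rw [e1, sum_comm (s := univ \ X.1)]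
    refine (sum_le_sum fun v _ => sum_le_sum fun y _ => ?_).trans
      (sum_le_sum_of_subset (f := fun v => ∑ y ∈ univ \ X.1, adj01 F v y) hCX)
    unfold adj01
    split_ifs with h6 h7
    · exact le_rfl
    · exact absurd (hF0 h6).symm h7
    · exact Nat.zero_le _
    · exact le_rfl
  have h6 : 2 * C.card ≤ l * C.card := Nat.mul_le_mul_right _ hl
  have h7 : l * C.card + 2 = l * C.card + 2 := rfl
  have hC1 : 1 ≤ C.card := card_pos.mpr hCne
  have h8 : l + 2 * C.card ≤ l * C.card + 2 := by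
    obtain ⟨c, hc⟩ : ∃ c, C.card = c + 1 := ⟨C.card - 1, by omega⟩
    rw [hc]
    have := Nat.mul_le_mul_right c hl
    nlinarith
  unfold fB at hXj
  omega

omit [Fintype V] in
lemma Desc.card_add {T : Finset (Finset V)} {i : ℕ} : ∀ {X Y : Finset V}, Desc T i X Y →
    Y.card + i ≤ X.card := by
  induction i with
  | zero => intro X Y h; rw [show X = Y from h]; exact le_rfl
  | succ i ih =>
    rintro X Y ⟨Z, hZ, h⟩
    have h1 := ih h
    have h2 := card_lt_card hZ.2.1
    omega

omit [Fintype V] in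
lemma Desc.unsnoc {T : Finset (Finset V)} {i : ℕ} : ∀ {X Y : Finset V}, Desc T (i + 1) X Y →
    ∃ P, Desc T i X P ∧ OnlyChild T P Y := by
  induction i with
  | zero =>
    rintro X Y ⟨Z, hZ, h⟩
    have h' : Z = Y := h
    exact ⟨X, rfl, h' ▸ hZ⟩
  | succ i ih =>
    rintro X Y ⟨Z, hZ, h⟩
    obtain ⟨P, hP, hPY⟩ := ih h
    exact ⟨P, ⟨Z, hZ, hP⟩, hPY⟩

/-- the number of bad vertices -/
lemma card_bad {G F F0 : SimpleGraph V} {k l : ℕ} (hF0 : F0 ≤ F) (hF : F ≤ G)
    (hlk : 4 * l ≤ k) (hk : 0 < k) (hdeg : ∀ v, k ≤ dgc G v) (Mk : Finset V)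
    (hMk : ∀ v, v ∉ Mk → dgc F0 v = l) :
    ((badSet G F k \ Mk).card : ℝ) ≤ 8 / k * ((ec F : ℝ) - ec F0) := by
  classical
  have hkr : (0 : ℝ) < k := by exact_mod_cast hk
  have h1 : ∀ v ∈ badSet G F k \ Mk, (k : ℝ) ≤ 4 * ((dgc F v : ℝ) - dgc F0 v) := by
    intro v hv
    rw [mem_sdiff, badSet, mem_filter] at hv
    have h2 := dgc_sdiff hF v
    have h3 := hMk v hv.2
    have h4 := hdeg v
    have h5 := hv.1.2
    have h6 : k + 4 * dgc F0 v ≤ 4 * dgc F v := by omega
    have h7 : (k : ℝ) + 4 * dgc F0 v ≤ 4 * dgc F v := by exact_mod_cast h6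
    linarith
  have h2 : ∑ v, ((dgc F v : ℝ) - dgc F0 v) = 2 * ((ec F : ℝ) - ec F0) := by
    rw [sum_sub_distrib]
    have e1 : (2 : ℝ) * ec F = ∑ v, (dgc F v : ℝ) := by exact_mod_cast two_mul_ec F
    have e2 : (2 : ℝ) * ec F0 = ∑ v, (dgc F0 v : ℝ) := by exact_mod_cast two_mul_ec F0
    rw [← e1, ← e2]
    ring
  have h3 : ((badSet G F k \ Mk).card : ℝ) * k ≤ ∑ v, 4 * ((dgc F v : ℝ) - dgc F0 v) := by
    calc ((badSet G F k \ Mk).card : ℝ) * k = ∑ _v ∈ badSet G F k \ Mk, (k : ℝ) := by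
          rw [sum_const, nsmul_eq_mul]
      _ ≤ ∑ v ∈ badSet G F k \ Mk, 4 * ((dgc F v : ℝ) - dgc F0 v) := sum_le_sum h1
      _ ≤ _ := by
          refine sum_le_sum_of_subset_of_nonneg (subset_univ _) fun v _ _ => ?_
          have := dgc_mono hF0 v
          have h5 : (dgc F0 v : ℝ) ≤ dgc F v := by exact_mod_cast this
          linarith
  rw [← mul_sum, h2] at h3
  rw [div_mul_eq_mul_div, le_div_iff₀ hkr]
  linarith

/-- the number of members of a phase family -/
theorem kcount {G F F0 : SimpleGraph V} {r : V} {j k l g : ℕ} (hF0 : F0 ≤ F) (hF : F ≤ G)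
    (hl : 2 ≤ l) (hlk : 4 * l ≤ k) (hg : 1 ≤ g) (hj : j < l) (hG : KC k G)
    (Mk : Finset V) (hMk : ∀ v, v ∉ Mk → dgc F0 v = l)
    (hcore : Core g F0 Mk)
    (T : Finset (Finset V × Finset V)) (hT : BPhaseFam G F r j T) :
    (T.card : ℝ) ≤ 2 * (l + 2) * (Mk.card + 8 / k * ((ec F : ℝ) - ec F0) + Fintype.card V / g +
      4 * Fintype.card V / k) := by
  classical
  have hk0 : 0 < k := by omega
  have hkr : (0 : ℝ) < k := by exact_mod_cast hk0
  have hgr : (0 : ℝ) < g := by exact_mod_cast hg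
  obtain ⟨hlam, hcut, hpack⟩ := hT
  -- an entering arc
  have harc : ∀ Y ∈ T, ∃ a ∈ arcs (G \ F), BEnters a Y := by
    intro Y hY
    apply exists_arc_of_ltB
    have h1 := RC_of_KC hG r Y (hcut Y hY).1
    have h2 := (hcut Y hY).2
    unfold fB at h1 h2
    omega
  have hle_eq : ∀ X ∈ T, ∀ Y ∈ T, X ≤ Y → X.2 = Y.2 → X = Y := by
    intro X hX Y hY hXY he
    obtain ⟨a, ha, haY⟩ := harc Y hY
    exact hpack a ha X hX Y hY ⟨he ▸ haY.1, fun h => haY.2 (hXY.1 h)⟩ haY
  have hinj : ∀ X ∈ T, ∀ Y ∈ T, X.2 = Y.2 → X = Y := by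
    intro X hX Y hY he
    rcases hlam X hX Y hY with h | h | h
    · exact hle_eq X hX Y hY h he
    · exact (hle_eq Y hY X hX h he.symm).symm
    · rw [he, disjoint_self] at h
      exact absurd h (nonempty_iff_ne_empty.mp (hcut Y hY).1.1)
  have hlt : ∀ X ∈ T, ∀ Y ∈ T, X.2 ⊂ Y.2 → X ≤ Y := by
    intro X hX Y hY hs
    rcases hlam X hX Y hY with h | h | h
    · exact h
    · exact absurd h.2 hs.2
    · obtain ⟨x, hx⟩ := (hcut X hX).1.1
      exact absurd (hs.1 hx) (disjoint_left.mp h hx)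
  set T' : Finset (Finset V) := T.image Prod.snd with hT'
  have hcard : T'.card = T.card := by
    rw [hT']
    exact card_image_of_injOn fun X hX Y hY h => hinj X hX Y hY h
  have hmem : ∀ A ∈ T', ∃ X ∈ T, X.2 = A := by
    intro A hA
    rw [hT', mem_image] at hA
    exact hA
  set W : Finset V := Mk ∪ badSet G F k with hW
  set μ : V → ℝ := fun v => (if v ∈ W then 1 else 0) + (1 / g + 4 / k) with hμ
  have hμ0 : ∀ v, 0 ≤ μ v := by
    intro v
    rw [hμ]
    dsimp only
    split_ifs <;> positivity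
  have hμW : ∀ v ∈ W, 1 ≤ μ v := by
    intro v hv
    rw [hμ]
    dsimp only
    rw [if_pos hv]
    have : (0 : ℝ) ≤ 1 / g + 4 / k := by positivity
    linarith
  have hμg : ∀ v, 1 / (g : ℝ) ≤ μ v := by
    intro v
    rw [hμ]
    dsimp only
    have h1 : (0 : ℝ) ≤ 4 / k := by positivity
    split_ifs <;> linarith
  have hμk : ∀ v, 4 / (k : ℝ) ≤ μ v := by
    intro v
    rw [hμ]
    dsimp only
    have h1 : (0 : ℝ) ≤ 1 / g := by positivity
    split_ifs <;> linarith
  have hsW : ∀ A : Finset V, ∀ v ∈ A, v ∈ W → 1 ≤ ∑ u ∈ A, μ u := fun A v hv hvW =>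
    (hμW v hvW).trans (single_le_sum (f := μ) (fun u _ => hμ0 u) hv)
  have hmain : (T'.card : ℝ) ≤ 2 * ((l + 2 : ℕ) : ℝ) * ∑ v ∈ (univ : Finset V), μ v := by
    refine lam_countM (by omega) ?_ ?_ hμ0 ?_ ?_ (fun X _ => subset_univ X)
    · -- laminar
      intro A hA B hB
      obtain ⟨X, hX, rfl⟩ := hmem A hA
      obtain ⟨Y, hY, rfl⟩ := hmem B hB
      rcases hlam X hX Y hY with h | h | h
      · exact Or.inl h.2
      · exact Or.inr (Or.inl h.2)
      · exact Or.inr (Or.inr h)
    · intro A hA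
      obtain ⟨X, hX, rfl⟩ := hmem A hA
      exact (hcut X hX).1.1
    · -- (P1)
      intro A hA
      obtain ⟨X, hX, rfl⟩ := hmem A hA
      by_cases hd : Disjoint X.2 Mk
      · have h1 := p1 hF0 hl hj Mk hMk hcore (hcut X hX).1 (hcut X hX).2 hd
        have h2 : (g : ℝ) ≤ X.2.card := by exact_mod_cast h1.le
        calc (1 : ℝ) = g * (1 / g) := by field_simp
          _ ≤ X.2.card * (1 / g) := mul_le_mul_of_nonneg_right h2 (by positivity)
          _ = ∑ _v ∈ X.2, 1 / (g : ℝ) := by rw [sum_const, nsmul_eq_mul]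
          _ ≤ _ := sum_le_sum fun v _ => hμg v
      · rw [not_disjoint_iff] at hd
        obtain ⟨v, hv, hvM⟩ := hd
        exact hsW _ v hv (mem_union_left _ hvM)
    · -- (P2)
      intro A hA B hAB
      obtain ⟨A1, hA1, hA1B⟩ := hAB
      obtain ⟨P, hA1P, hPB⟩ := hA1B.unsnoc
      obtain ⟨X0, hX0, hX0A⟩ := hmem A hA
      obtain ⟨X1, hX1, hX1A⟩ := hmem A1 hA1.1
      have hPT : P ∈ T' := hA1P.mem hA1.1
      obtain ⟨Xp, hXp, hXpP⟩ := hmem P hPT
      obtain ⟨Xm, hXm, hXmB⟩ := hmem B hPB.1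
      have h10 : X1 ≤ X0 := hlt X1 hX1 X0 hX0 (by rw [hX1A, hX0A]; exact hA1.2.1)
      have hmp : Xm ≤ Xp := hlt Xm hXm Xp hXp (by rw [hXmB, hXpP]; exact hPB.2.1)
      have hPA1 : P ⊆ A1 := hA1P.subset
      -- a vertex of A1 outside the outer set of Xp
      obtain ⟨v, hvA1, hvp⟩ : ∃ v ∈ A1, v ∉ Xp.1 := by
        by_contra hcon
        push Not at hcon
        have h1 := hA1P.card_add
        have h2 : A1 \ P ⊆ Xp.1 \ Xp.2 := by
          intro v hv
          rw [mem_sdiff] at hv ⊢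
          rw [hXpP]
          exact ⟨hcon v hv.1, hv.2⟩
        have h3 := card_le_card h2
        have h4 := card_sdiff_add_card_eq_card hPA1
        have h5 := (hcut Xp hXp).2
        unfold fB at h5
        omega
      have hBP : B ⊆ P := hPB.2.1.1
      have hPX : P ⊆ Xp.1 := by
        rw [← hXpP]
        exact (hcut Xp hXp).1.2.1
      have hvA : v ∈ A := hA1.2.1.1 hvA1
      have hvB : v ∉ B := fun h => hvp (hPX (hBP h))
      have hvAB : v ∈ A \ B := mem_sdiff.mpr ⟨hvA, hvB⟩
      by_cases hvW : v ∈ W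
      · exact hsW _ v hvAB hvW
      · have hvbad : k ≤ 2 * dgc (G \ F) v := by
          by_contra hcon
          push Not at hcon
          apply hvW
          rw [hW, mem_union]
          right
          rw [badSet, mem_filter]
          exact ⟨mem_univ _, hcon⟩
        have hN : univ.filter ((G \ F).Adj v) ⊆ (A \ B) ∪ (X0.1 \ X0.2) := by
          intro y hy
          rw [mem_filter] at hy
          have hvy := hy.2
          have hyX0 : y ∈ X0.1 := by
            by_contra hcon
            have h1 : BEnters (y, v) X0 := ⟨by rw [hX0A]; exact hvA, hcon⟩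
            have h2 : BEnters (y, v) X1 := ⟨by rw [hX1A]; exact hvA1, fun h => hcon (h10.1 h)⟩
            have h3 := hpack (y, v) (mem_arcs.mpr hvy.symm) X0 hX0 X1 hX1 h1 h2
            have h4 := hA1.2.1
            rw [← hX1A, ← hX0A, h3] at h4
            exact (lt_irrefl _) h4
          have hyB : y ∉ B := by
            intro hcon
            have h1 : BEnters (v, y) Xm := ⟨by rw [hXmB]; exact hcon, fun h => hvp (hmp.1 h)⟩
            have h2 : BEnters (v, y) Xp := ⟨by rw [hXpP]; exact hBP hcon, hvp⟩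
            have h3 := hpack (v, y) (mem_arcs.mpr hvy) Xm hXm Xp hXp h1 h2
            have h4 := hPB.2.1
            rw [← hXmB, ← hXpP, h3] at h4
            exact (lt_irrefl _) h4
          rw [mem_union, mem_sdiff, mem_sdiff]
          by_cases hyA : y ∈ A
          · exact Or.inl ⟨hyA, hyB⟩
          · exact Or.inr ⟨hyX0, by rw [hX0A]; exact hyA⟩
        have h1 := (card_le_card hN).trans (card_union_le _ _)
        have h2 : (univ.filter ((G \ F).Adj v)).card = dgc (G \ F) v := by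
          unfold dgc
          congr 1
          ext y
          simp only [mem_filter]
        have h3 := (hcut X0 hX0).2
        unfold fB at h3
        have h4 : k ≤ 4 * (A \ B).card := by omega
        have h5 : (k : ℝ) ≤ 4 * (A \ B).card := by exact_mod_cast h4
        calc (1 : ℝ) = k / k := by field_simp
          _ ≤ (4 * (A \ B).card) / k := div_le_div_of_nonneg_right h5 hkr.le
          _ = ∑ _v ∈ A \ B, 4 / (k : ℝ) := by rw [sum_const, nsmul_eq_mul]; ring
          _ ≤ _ := sum_le_sum fun v _ => hμk v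
  have hsum : ∑ v ∈ (univ : Finset V), μ v = W.card + Fintype.card V * (1 / g + 4 / k) := by
    rw [hμ]
    rw [sum_add_distrib, sum_const, nsmul_eq_mul, card_univ]
    congr 1
    rw [sum_ite_mem, univ_inter, sum_const, nsmul_eq_mul, mul_one]
  have hWcard : (W.card : ℝ) ≤ Mk.card + 8 / k * ((ec F : ℝ) - ec F0) := by
    have h1 := card_bad hF0 hF hlk hk0 (fun v => hG.min_degree v) Mk hMk
    have h2 : W.card ≤ Mk.card + (badSet G F k \ Mk).card := by
      rw [hW, ← union_sdiff_self_eq_union]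
      exact card_union_le _ _
    have h3 : (W.card : ℝ) ≤ Mk.card + (badSet G F k \ Mk).card := by exact_mod_cast h2
    linarith
  rw [hcard, hsum] at hmain
  refine hmain.trans ?_
  push_cast
  have h5 : (W.card : ℝ) + Fintype.card V * (1 / g + 4 / k) ≤
      Mk.card + 8 / k * ((ec F : ℝ) - ec F0) + Fintype.card V / g + 4 * Fintype.card V / k := by
    have : (Fintype.card V : ℝ) * (1 / g + 4 / k) =
      Fintype.card V / g + 4 * Fintype.card V / k := by ring
    rw [this]
    linarith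
  exact mul_le_mul_of_nonneg_left h5 (by positivity)

end Pool.Agent.Work.MP_60abc6_co.KAP
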