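import Mathlib
import Pool.Agent.Work.MP_60abc6_co.KAP.BPhases
import Pool.Agent.Work.MP_60abc6_co.KAP.KCount
import Pool.Agent.Work.MP_60abc6_co.DEL.CoreT
import Pool.Agent.Work.MP_60abc6_co.DEL.Num

set_option autoImplicit false

/-! Vertex connectivity: the theorem for fixed `l`. -/

namespace Pool.Agent.Work.MP_60abc6_co.KAP

open Finset Pool.Agent.Work.MP_60abc6_co.DEL

/-- the phases for fixed `l` -/
theorem kappa_phases {V : Type*} [Fintype V] [DecidableEq V] {G F0 : SimpleGraph V}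
    {k l g : ℕ} (hF0 : F0 ≤ G) (hl : 2 ≤ l) (hlk : 32 * l ^ 2 * (l + 2) ≤ k) (hg : 1 ≤ g)
    (hG : KC k G) (Mk : Finset V) (hMk : ∀ v, v ∉ Mk → dgc F0 v = l) (hcore : Core g F0 Mk) :
    ∃ H : SimpleGraph V, H ≤ G ∧ KC l H ∧
      (ec H : ℝ) ≤ ec F0 + 4 * l ^ 2 * (l + 2) *
        (Mk.card + Fintype.card V / g + 4 * Fintype.card V / k) := by
  have h4 : 4 * l ≤ k := by
    refine le_trans ?_ hlk
    nlinarith [Nat.zero_le l, Nat.mul_le_mul hl hl]
  have hk0 : 0 < k := by omega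
  have hkr : (0 : ℝ) < k := by exact_mod_cast hk0
  have hlk' : (32 : ℝ) * l ^ 2 * (l + 2) ≤ k := by exact_mod_cast hlk
  have hlV : l < Fintype.card V := by
    have := hG.1
    omega
  set Q : ℝ := Mk.card + Fintype.card V / g + 4 * Fintype.card V / k with hQ
  have hQ0 : 0 ≤ Q := by positivity
  set b : ℝ := 4 * (l + 2) * Q with hb
  have hb0 : 0 ≤ b := by positivity
  obtain ⟨H, -, hHG, hH, hec⟩ := bphases (M := F0) hlV hF0 (hG.mono (by omega)) b hb0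
    (fun r j hj F h0F hFG hecF T hT => by
      have h1 := kcount h0F hFG hl h4 hg hj hG Mk hMk hcore T hT
      refine h1.trans ?_
      have h2 : (ec F : ℝ) - ec F0 ≤ (l : ℝ) ^ 2 * b := by linarith
      have h3 : 8 / k * ((ec F : ℝ) - ec F0) ≤ Q := by
        have h5 : 8 / k * ((ec F : ℝ) - ec F0) ≤ 8 / k * ((l : ℝ) ^ 2 * b) :=
          mul_le_mul_of_nonneg_left h2 (by positivity)
        refine h5.trans ?_
        rw [hb, div_mul_eq_mul_div, div_le_iff₀ hkr]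
        have h6 := mul_le_mul_of_nonneg_left hlk' hQ0
        nlinarith
      rw [hb]
      have h7 : (Mk.card : ℝ) + 8 / k * ((ec F : ℝ) - ec F0) + Fintype.card V / g +
          4 * Fintype.card V / k ≤ 2 * Q := by
        rw [hQ] at h3 ⊢
        linarith
      have h8 := mul_le_mul_of_nonneg_left h7 (show (0 : ℝ) ≤ 2 * (l + 2) by positivity)
      linarith)
  refine ⟨H, hHG, hH, hec.trans (le_of_eq ?_)⟩
  rw [hb]
  ring

/-- for fixed `l ≥ 2`, every `k`-connected graph of large `k` has an `l`-connected spanning subgraph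
obtained by deleting at least `(k - l) n / 2 - ε n` edges -/
theorem fixed_l_kappa (l : ℕ) (hl : 2 ≤ l) (ε : ℝ) (hε : 0 < ε) :
    ∃ k₀ : ℕ, ∀ k ≥ k₀, ∀ n : ℕ, k < n → ∀ G : SimpleGraph (Fin n), KC k G →
      ∃ H : SimpleGraph (Fin n), H ≤ G ∧ KC l H ∧
        (ec H : ℝ) + ((k : ℝ) - l) / 2 * n ≤ ec G + ε * n := by
  set c : ℝ := 4 * l ^ 2 * (l + 2) with hc
  have hc0 : 0 ≤ c := by positivity
  obtain ⟨g, hg⟩ := exists_nat_gt (4 * c / ε)
  have hg1 : 1 ≤ g + 1 := by omega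
  obtain ⟨k₀, hk₀⟩ := core_t l hl c hc0 (g + 1) hg1 (ε / 4) (by positivity)
  obtain ⟨k₁, hk₁⟩ := exists_nat_gt (16 * c / ε)
  refine ⟨max k₀ (max (k₁ + 1) (32 * l ^ 2 * (l + 2))), fun k hk n hkn G hG => ?_⟩
  have hk0 : k₀ ≤ k := le_trans (le_max_left _ _) hk
  have hk1 : k₁ + 1 ≤ k := le_trans (le_trans (le_max_left _ _) (le_max_right _ _)) hk
  have hk2 : 32 * l ^ 2 * (l + 2) ≤ k := le_trans (le_trans (le_max_right _ _) (le_max_right _ _)) hk
  obtain ⟨F0, Mk, hF0, hMk, hfor, hec⟩ := hk₀ k hk0 n hkn G (fun v => KC.min_degree hG v)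
  obtain ⟨H, hHG, hH, hecH⟩ := kappa_phases hF0 hl hk2 hg1 hG Mk hMk hfor
  refine ⟨H, hHG, hH, ?_⟩
  rw [← hc, Fintype.card_fin] at hecH
  have hn : (0 : ℝ) ≤ n := Nat.cast_nonneg n
  have h1 : c * ((n : ℝ) / (g + 1 : ℕ)) ≤ ε / 4 * n := by
    have hg0 : (0 : ℝ) < (g + 1 : ℕ) := by exact_mod_cast hg1
    have h2 : 4 * c / ε ≤ (g + 1 : ℕ) := by push_cast; linarith
    rw [div_le_iff₀ hε] at h2
    rw [← mul_div_assoc, div_le_iff₀ hg0]
    have h3 := mul_le_mul_of_nonneg_right h2 hn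
    linarith
  have h2 : c * (4 * (n : ℝ) / k) ≤ ε / 4 * n := by
    have hk0' : (0 : ℝ) < k := by
      have : 0 < k := by omega
      exact_mod_cast this
    have h2 : 16 * c / ε ≤ k := by
      have : ((k₁ + 1 : ℕ) : ℝ) ≤ k := by exact_mod_cast hk1
      push_cast at this
      linarith
    rw [div_le_iff₀ hε] at h2
    rw [← mul_div_assoc, div_le_iff₀ hk0']
    have h3 := mul_le_mul_of_nonneg_right h2 hn
    linarith
  have h3 : c * (Mk.card + (n : ℝ) / (g + 1 : ℕ) + 4 * n / k) ≤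
      c * Mk.card + ε / 2 * n := by
    rw [mul_add, mul_add]
    linarith
  have h4 : 0 ≤ ε * n := by positivity
  linarith

/-- the lower bound for `e_κ(n; k, l)`, for fixed `l ≥ 2` and large `k` -/
theorem eKappa_lower (l : ℕ) (hl : 2 ≤ l) (ε : ℝ) (hε : 0 < ε) :
    ∃ k₀ : ℕ, ∀ k ≥ k₀, ∀ n : ℕ, k < n →
      ((k : ℝ) - l) / 2 * n - ε * n ≤ (eKappa n k l : ℝ) := by
  obtain ⟨k₀, hk₀⟩ := fixed_l_kappa l hl ε hε
  refine ⟨max k₀ (l + 1), fun k hk n hkn => ?_⟩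
  have h1 : k₀ ≤ k := le_trans (le_max_left _ _) hk
  have h2 : l + 1 ≤ k := le_trans (le_max_right _ _) hk
  refine kappa_ge (by omega) hkn _ fun G hG => ?_
  obtain ⟨H, h3, h4, h5⟩ := hk₀ k h1 n hkn G hG
  exact ⟨H, h3, h4, by linarith⟩

end Pool.Agent.Work.MP_60abc6_co.KAP
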